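import Pool.Agent.Helper6.CS.Goals1

namespace Pool.Agent.Helper83.CS

open Pool.Agent.Helper6.CS

theorem t_PSM : G_PSM := by
  intro M _ b D E h ⟨p, hp⟩
  refine ⟨p, fun q => ?_⟩
  obtain ⟨y, hy, H⟩ := hp q
  refine ⟨y, hy, fun g hg hgq => ?_⟩
  obtain ⟨t, ht, htp, hD⟩ := H g hg hgq
  exact ⟨t, ht, htp, h _ (Over.append_iff.2 ⟨Over.append_iff.2 ⟨ht, hg⟩, hy⟩) hD⟩

end Pool.Agent.Helper83.CS
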