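import Pool.Agent.Helper65.CS.Goals

/-! # Packet CS-CYL: small bias implies almost independence -/

set_option autoImplicit false

namespace Pool.Agent.Helper83.CS

open Pool.Agent.Helper65.CS Pool.Agent.Helper78.DT Pool.Agent.Helper51.ZP
open scoped Classical

theorem ind_eq (z : ZMod 2) (c : Bool) :
    (if z2b z = c then (1 : ℝ) else 0) = (1 / 2) * (1 + sg (z + b2z c)) := by
  have hz : z = 0 ∨ z = 1 := by
    revert z
    decide
  have h2 : (1 : ZMod 2) + 1 = 0 := by decide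
  rcases hz with rfl | rfl <;> cases c
  · simp [z2b, b2z]
    norm_num
  · simp [z2b, b2z]
  · simp [z2b, b2z]
  · simp only [z2b, b2z, h2, sg_zero, decide_true, if_true]
    norm_num

theorem sg_sum {ι : Type} (J : Finset ι) (a : ι → ZMod 2) :
    ∏ i ∈ J, sg (a i) = sg (∑ i ∈ J, a i) := by
  induction J using Finset.induction_on with
  | empty => simp
  | insert x s hx ih => rw [Finset.prod_insert hx, Finset.sum_insert hx, sg_add, ih]

theorem abs_sg (a : ZMod 2) : |sg a| = 1 := by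
  unfold sg
  split_ifs <;> norm_num

theorem ind_all {m : ℕ} (I : Finset (Fin m)) (z : Fin m → ZMod 2) (c : Fin m → Bool) :
    (if ∀ i ∈ I, z2b (z i) = c i then (1 : ℝ) else 0) =
      (1 / 2) ^ I.card * ∑ J ∈ I.powerset, sg (∑ i ∈ J, (z i + b2z (c i))) := by
  have h1 : (if ∀ i ∈ I, z2b (z i) = c i then (1 : ℝ) else 0) =
      ∏ i ∈ I, (if z2b (z i) = c i then (1 : ℝ) else 0) := by
    split_ifs with h
    · rw [Finset.prod_congr rfl fun i hi => if_pos (h i hi), Finset.prod_const_one]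
    · push Not at h
      obtain ⟨i, hi, hne⟩ := h
      rw [Finset.prod_eq_zero hi (if_neg hne)]
  rw [h1]
  simp only [ind_eq]
  rw [Finset.prod_mul_distrib, Finset.prod_const, Finset.prod_one_add]
  simp only [sg_sum]

theorem dot_ind {m : ℕ} (J : Finset (Fin m)) (z : Fin m → ZMod 2) :
    (fun i => if i ∈ J then (1 : ZMod 2) else 0) ⬝ᵥ z = ∑ i ∈ J, z i := by
  unfold dotProduct
  simp [Finset.sum_ite_mem]

theorem cyl : CylStmt := by
  intro m Ω _ _ ε Z hε hZ I c
  have h1 : pr (fun ω => ∀ i ∈ I, z2b (Z ω i) = c i) =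
      (1 / 2) ^ I.card * ∑ J ∈ I.powerset, av fun ω => sg (∑ i ∈ J, (Z ω i + b2z (c i))) := by
    rw [pr_eq_av, ← av_sum, ← av_mul_left]
    refine av_congr fun ω => ?_
    convert ind_all I (Z ω) c
  have h2 : ∀ J ∈ I.powerset.erase ∅,
      |av fun ω => sg (∑ i ∈ J, (Z ω i + b2z (c i)))| ≤ ε := by
    intro J hJ
    have hJne : J.Nonempty := Finset.nonempty_iff_ne_empty.2 (Finset.ne_of_mem_erase hJ)
    set a : Fin m → ZMod 2 := fun i => if i ∈ J then (1 : ZMod 2) else 0 with ha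
    have ha0 : a ≠ 0 := by
      obtain ⟨i, hi⟩ := hJne
      intro h
      have := congrFun h i
      simp [ha, hi] at this
    have e1 : (av fun ω => sg (∑ i ∈ J, (Z ω i + b2z (c i)))) =
        (Ex fun ω => sg (a ⬝ᵥ Z ω)) * sg (∑ i ∈ J, b2z (c i)) := by
      have e2 : (Ex fun ω => sg (a ⬝ᵥ Z ω)) = av fun ω => sg (a ⬝ᵥ Z ω) := rfl
      rw [e2, ← av_mul_right]
      refine av_congr fun ω => ?_
      rw [← sg_add, Finset.sum_add_distrib, ← dot_ind J (Z ω)]
    rw [e1, abs_mul, abs_sg, mul_one]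
    exact hZ a ha0
  have h3 : ∑ J ∈ I.powerset, (av fun ω => sg (∑ i ∈ J, (Z ω i + b2z (c i)))) =
      1 + ∑ J ∈ I.powerset.erase ∅, av fun ω => sg (∑ i ∈ J, (Z ω i + b2z (c i))) := by
    rw [← Finset.add_sum_erase _ _ (Finset.empty_mem_powerset I)]
    congr 1
    simp only [Finset.sum_empty, sg_zero]
    exact av_const 1
  have h4 : |∑ J ∈ I.powerset.erase ∅, av fun ω => sg (∑ i ∈ J, (Z ω i + b2z (c i)))| ≤
      2 ^ I.card * ε := by
    refine (Finset.abs_sum_le_sum_abs _ _).trans ((Finset.sum_le_sum h2).trans ?_)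
    rw [Finset.sum_const, nsmul_eq_mul]
    refine mul_le_mul_of_nonneg_right ?_ hε
    have : (I.powerset.erase ∅).card ≤ 2 ^ I.card := by
      rw [← Finset.card_powerset]
      exact Finset.card_le_card (Finset.erase_subset _ _)
    exact_mod_cast this
  rw [h1, h3]
  have h5 : (1 / 2 : ℝ) ^ I.card * (1 + ∑ J ∈ I.powerset.erase ∅,
      av fun ω => sg (∑ i ∈ J, (Z ω i + b2z (c i)))) - (1 / 2) ^ I.card =
      (1 / 2) ^ I.card * ∑ J ∈ I.powerset.erase ∅,
        av fun ω => sg (∑ i ∈ J, (Z ω i + b2z (c i))) := by ring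
  rw [h5, abs_mul, abs_of_nonneg (by positivity : (0 : ℝ) ≤ (1 / 2) ^ I.card)]
  calc (1 / 2 : ℝ) ^ I.card * |∑ J ∈ I.powerset.erase ∅,
        av fun ω => sg (∑ i ∈ J, (Z ω i + b2z (c i)))|
      ≤ (1 / 2) ^ I.card * (2 ^ I.card * ε) := mul_le_mul_of_nonneg_left h4 (by positivity)
    _ = ε := by
      rw [← mul_assoc, ← mul_pow]
      norm_num

end Pool.Agent.Helper83.CS
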